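import Mathlib

set_option autoImplicit false

/-!
# Normal subgroups of `SL_2(ℤ_p)`

For `p ≥ 5` every noncentral normal subgroup of `SL_2(ℤ_p)` contains a congruence subgroup. So the
compact metrizable nonarchimedean group `SL_2(ℤ_p)` has no uncountable normal subgroup of
uncountable index.
-/

open Matrix

namespace Pool.Agent.Results.MP_847604_al.SpecialLinear

variable {p : ℕ} [hp : Fact p.Prime]

/-- a matrix of determinant one -/
def mk (a b c d : ℤ_[p]) (h : a * d - b * c = 1) : SpecialLinearGroup (Fin 2) ℤ_[p] :=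
  ⟨!![a, b; c, d], by rw [Matrix.det_fin_two_of]; exact h⟩

/-- equality of matrices of size two -/
lemma ext2 {g h : SpecialLinearGroup (Fin 2) ℤ_[p]} (h00 : g.1 0 0 = h.1 0 0)
    (h01 : g.1 0 1 = h.1 0 1) (h10 : g.1 1 0 = h.1 1 0) (h11 : g.1 1 1 = h.1 1 1) : g = h := by
  apply Subtype.ext
  ext i j
  fin_cases i <;> fin_cases j
  · exact h00
  · exact h01
  · exact h10
  · exact h11

lemma mk_mul {a b c d a' b' c' d' : ℤ_[p]} (h : a * d - b * c = 1) (h' : a' * d' - b' * c' = 1)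
    (h'' : (a * a' + b * c') * (c * b' + d * d') - (a * b' + b * d') * (c * a' + d * c') = 1) :
    mk a b c d h * mk a' b' c' d' h' =
      mk (a * a' + b * c') (a * b' + b * d') (c * a' + d * c') (c * b' + d * d') h'' := by
  apply ext2 <;> simp [mk, Matrix.mul_apply, Fin.sum_univ_two]

lemma mk_congr {a b c d a' b' c' d' : ℤ_[p]} {h : a * d - b * c = 1}
    {h' : a' * d' - b' * c' = 1} (ha : a = a') (hb : b = b') (hc : c = c') (hd : d = d') :
    mk a b c d h = mk a' b' c' d' h' := by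
  subst ha hb hc hd
  rfl

lemma mk_inv {a b c d : ℤ_[p]} (h : a * d - b * c = 1) (h' : d * a - (-b) * (-c) = 1) :
    (mk a b c d h)⁻¹ = mk d (-b) (-c) a h' := by
  rw [inv_eq_iff_mul_eq_one, mk_mul _ _ (by linear_combination (a * d - b * c + 1) * h)]
  apply ext2
  · show a * d + b * (-c) = 1
    linear_combination h
  · show a * (-b) + b * a = 0
    ring
  · show c * d + d * (-c) = 0
    ring
  · show c * (-b) + d * a = 1
    linear_combination h

/-- upper unipotent -/
noncomputable def U (x : ℤ_[p]) : SpecialLinearGroup (Fin 2) ℤ_[p] := mk 1 x 0 1 (by ring)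

/-- lower unipotent -/
noncomputable def L (x : ℤ_[p]) : SpecialLinearGroup (Fin 2) ℤ_[p] := mk 1 0 x 1 (by ring)

lemma U_add (x y : ℤ_[p]) : U x * U y = U (x + y) := by
  unfold U
  rw [mk_mul _ _ (by ring)]
  exact mk_congr (by ring) (by ring) (by ring) (by ring)

lemma U_zero : U (0 : ℤ_[p]) = 1 := by
  apply ext2 <;> simp [U, mk]

lemma U_neg (x : ℤ_[p]) : (U x)⁻¹ = U (-x) := by
  rw [inv_eq_iff_mul_eq_one, U_add, add_neg_cancel, U_zero]

/-- conjugation, with everything in coordinates -/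
lemma conj_mem {N : Subgroup (SpecialLinearGroup (Fin 2) ℤ_[p])} (hN : N.Normal)
    {a b c d x y z w : ℤ_[p]} {h : a * d - b * c = 1} (h1 : mk a b c d h ∈ N)
    (h2 : x * w - y * z = 1) {a' b' c' d' : ℤ_[p]} (h' : a' * d' - b' * c' = 1)
    (ea : a' = (x * a + y * c) * w - (x * b + y * d) * z)
    (eb : b' = -(x * a + y * c) * y + (x * b + y * d) * x)
    (ec : c' = (z * a + w * c) * w - (z * b + w * d) * z)
    (ed : d' = -(z * a + w * c) * y + (z * b + w * d) * x) :
    mk a' b' c' d' h' ∈ N := by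
  have h3 := hN.conj_mem _ h1 (mk x y z w h2)
  rw [mk_inv h2 (by linear_combination h2)] at h3
  have e : mk x y z w h2 * mk a b c d h * mk w (-y) (-z) x (by linear_combination h2) =
      mk a' b' c' d' h' := by
    apply ext2
    · simp [mk]
      rw [ea]; ring
    · simp [mk]
      rw [eb]; ring
    · simp [mk]
      rw [ec]; ring
    · simp [mk]
      rw [ed]; ring
  rwa [e] at h3

lemma mul_mem' {N : Subgroup (SpecialLinearGroup (Fin 2) ℤ_[p])}
    {a b c d x y z w : ℤ_[p]} {h : a * d - b * c = 1} (h1 : mk a b c d h ∈ N)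
    {h2 : x * w - y * z = 1} (h3 : mk x y z w h2 ∈ N) {a' b' c' d' : ℤ_[p]}
    (h' : a' * d' - b' * c' = 1) (ea : a' = a * x + b * z) (eb : b' = a * y + b * w)
    (ec : c' = c * x + d * z) (ed : d' = c * y + d * w) : mk a' b' c' d' h' ∈ N := by
  have h4 := N.mul_mem h1 h3
  subst ea eb ec ed
  rwa [mk_mul h h2 h'] at h4

lemma norm_p_lt : ‖(p : ℤ_[p])‖ < 1 := by
  rw [PadicInt.norm_p]
  exact inv_lt_one_of_one_lt₀ (by exact_mod_cast hp.out.one_lt)

/-- squares of units generate `ℤ_p` additively -/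
lemma squares (h5 : 5 ≤ p) (S : AddSubgroup ℤ_[p]) (hS : ∀ u : ℤ_[p], IsUnit u → u ^ 2 ∈ S) :
    ∀ x, x ∈ S := by
  have hone : (1 : ℤ_[p]) ∈ S := by simpa using hS 1 isUnit_one
  have h4 : IsUnit (4 : ℤ_[p]) := by
    have : (4 : ℤ_[p]) = ((4 : ℕ) : ℤ_[p]) := by norm_num
    rw [this, PadicInt.isUnit_iff]
    have h := (PadicInt.norm_int_lt_one_iff_dvd (p := p) 4).not
    have h41 : ¬ ((p : ℤ) ∣ 4) := by
      intro hd
      have := Int.le_of_dvd (by norm_num) hd
      omega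
    have h42 := h.2 h41
    have h43 := PadicInt.norm_le_one ((4 : ℕ) : ℤ_[p])
    refine le_antisymm h43 ?_
    have h44 := not_lt.1 h42
    exact_mod_cast h44
  have hmax : ∀ z : ℤ_[p], ‖z‖ < 1 → z ∈ S := by
    intro z hz
    obtain ⟨v, hv⟩ := h4
    set y : ℤ_[p] := ((v⁻¹ : ℤ_[p]ˣ) : ℤ_[p]) * z with hy
    have hy1 : ‖y‖ < 1 := by
      rw [hy, norm_mul, PadicInt.norm_units, one_mul]
      exact hz
    have hz' : z = (y + 1) ^ 2 - (y - 1) ^ 2 := by
      have : (4 : ℤ_[p]) * y = z := by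
        rw [hy, ← hv, ← mul_assoc, Units.mul_inv, one_mul]
      linear_combination -this
    have hu : ∀ e : ℤ_[p], ‖e‖ = 1 → IsUnit (y + e) := by
      intro e he
      rw [PadicInt.isUnit_iff]
      rw [PadicInt.norm_add_eq_max_of_ne (by rw [he]; exact hy1.ne), he]
      exact max_eq_right hy1.le
    rw [hz']
    refine S.sub_mem (hS _ (hu 1 norm_one)) (hS _ ?_)
    have := hu (-1) (by rw [norm_neg, norm_one])
    rwa [← sub_eq_add_neg] at this
  intro x
  obtain ⟨-, h2⟩ := PadicInt.zmodRepr_spec x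
  have h3 : ‖x - (PadicInt.zmodRepr x : ℤ_[p])‖ < 1 := by
    rwa [IsLocalRing.mem_maximalIdeal, PadicInt.mem_nonunits] at h2
  have h4 := hmax _ h3
  have h5 : ((PadicInt.zmodRepr x : ℕ) : ℤ_[p]) ∈ S := by
    have := S.nsmul_mem hone (PadicInt.zmodRepr x)
    simpa using this
  have := S.add_mem h4 h5
  simpa using this

/-- a normal subgroup which contains one elementary matrix -/
lemma all_U (h5 : 5 ≤ p) {N : Subgroup (SpecialLinearGroup (Fin 2) ℤ_[p])} (hN : N.Normal)
    {ν : ℤ_[p]} (h : U ν ∈ N) : ∀ x, U (ν * x) ∈ N := by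
  let S : AddSubgroup ℤ_[p] :=
    { carrier := {x | U (ν * x) ∈ N}
      zero_mem' := by
        show U (ν * 0) ∈ N
        rw [mul_zero, U_zero]
        exact N.one_mem
      add_mem' := by
        intro x y hx hy
        show U (ν * (x + y)) ∈ N
        rw [mul_add, ← U_add]
        exact N.mul_mem hx hy
      neg_mem' := by
        intro x hx
        show U (ν * -x) ∈ N
        rw [mul_neg, ← U_neg]
        exact N.inv_mem hx }
  refine squares h5 S ?_
  intro u hu
  obtain ⟨v, rfl⟩ := hu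
  show U (ν * (v : ℤ_[p]) ^ 2) ∈ N
  have hv : (v : ℤ_[p]) * ((v⁻¹ : ℤ_[p]ˣ) : ℤ_[p]) = 1 := Units.mul_inv v
  refine conj_mem hN (x := v) (y := 0) (z := 0) (w := ((v⁻¹ : ℤ_[p]ˣ) : ℤ_[p])) h
    (by rw [hv]; ring) _ ?_ ?_ ?_ ?_
  · rw [mul_one, zero_mul, add_zero, hv]; ring
  · ring
  · ring
  · linear_combination -hv

lemma all_L (h5 : 5 ≤ p) {N : Subgroup (SpecialLinearGroup (Fin 2) ℤ_[p])} (hN : N.Normal)
    {ν : ℤ_[p]} (h : U ν ∈ N) (x : ℤ_[p]) : L (ν * x) ∈ N := by
  have h1 := all_U h5 hN h (-x)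
  refine conj_mem hN (x := 0) (y := 1) (z := -1) (w := 0) h1 (by ring) _ ?_ ?_ ?_ ?_ <;> ring

/-- diagonal matrices in a normal subgroup -/
lemma diag_mem (h5 : 5 ≤ p) {N : Subgroup (SpecialLinearGroup (Fin 2) ℤ_[p])} (hN : N.Normal)
    {ν : ℤ_[p]} (h : U ν ∈ N) (t a e : ℤ_[p]) (ha : a = 1 + ν ^ 2 * t) (hae : a * e = 1) :
    mk a 0 0 e (by linear_combination hae) ∈ N := by
  have h1 : mk a ν (ν * t) 1 (by linear_combination ha) ∈ N := by
    have hU := all_U h5 hN h 1
    have hL := all_L h5 hN h t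
    refine mul_mem' hU hL _ ?_ ?_ ?_ ?_
    · linear_combination ha
    · ring
    · ring
    · ring
  have h2 : mk a ν 0 e (by linear_combination hae) ∈ N := by
    have hL := all_L h5 hN h (-t * e)
    refine mul_mem' hL h1 _ ?_ ?_ ?_ ?_
    · ring
    · ring
    · linear_combination ν * t * hae
    · linear_combination hae - e * ha
  have hU := all_U h5 hN h (-e)
  refine mul_mem' h2 hU _ ?_ ?_ ?_ ?_
  · ring
  · linear_combination ν * hae
  · ring
  · ring

/-- a normal subgroup with an elementary matrix contains a congruence subgroup -/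
lemma congruence (h5 : 5 ≤ p) {N : Subgroup (SpecialLinearGroup (Fin 2) ℤ_[p])} (hN : N.Normal)
    {ν : ℤ_[p]} (h : U ν ∈ N) {a b c d t β γ e : ℤ_[p]} (hd : a * d - b * c = 1)
    (ha : a = 1 + ν ^ 2 * t) (hb : b = ν * β) (hc : c = ν * γ) (hae : a * e = 1) :
    mk a b c d hd ∈ N := by
  have h1 := diag_mem h5 hN h t a e ha hae
  have hU := all_U h5 hN h (β * e)
  have hL := all_L h5 hN h (γ * e)
  have h2 : mk a b 0 e (by linear_combination hae) ∈ N := by
    refine mul_mem' h1 hU _ ?_ ?_ ?_ ?_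
    · ring
    · linear_combination hb - ν * β * hae
    · ring
    · ring
  refine mul_mem' hL h2 _ ?_ ?_ ?_ ?_
  · ring
  · ring
  · linear_combination hc - ν * γ * hae
  · linear_combination e * hd - d * hae + e * b * hc

/-- a normal subgroup which contains a noncentral matrix contains an elementary matrix -/
lemma exists_U_of_ne (h5 : 5 ≤ p) {N : Subgroup (SpecialLinearGroup (Fin 2) ℤ_[p])}
    (hN : N.Normal) {a b c d : ℤ_[p]} {hd : a * d - b * c = 1} (h : mk a b c d hd ∈ N)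
    (hc : c ≠ 0) : ∃ ν : ℤ_[p], ν ≠ 0 ∧ U ν ∈ N := by
  have hp1 : ‖(p : ℤ_[p])‖ < 1 := norm_p_lt
  have hp0 : (p : ℤ_[p]) ≠ 0 := by
    exact_mod_cast hp.out.ne_zero
  set l : ℤ_[p] := 1 + p * c with hl
  have hpc : ‖(p : ℤ_[p]) * c‖ < 1 := by
    rw [norm_mul]
    calc ‖(p : ℤ_[p])‖ * ‖c‖ ≤ ‖(p : ℤ_[p])‖ * 1 := by
          gcongr
          exact PadicInt.norm_le_one c
      _ < 1 := by rwa [mul_one]
  have hlu : IsUnit l := by
    rw [PadicInt.isUnit_iff, hl, add_comm]
    rw [PadicInt.norm_add_eq_max_of_ne (by rw [norm_one]; exact hpc.ne), norm_one]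
    exact max_eq_right hpc.le
  obtain ⟨v, hv⟩ := hlu
  set m : ℤ_[p] := ((v⁻¹ : ℤ_[p]ˣ) : ℤ_[p]) with hm
  have hlm : l * m = 1 := by rw [← hv, hm]; exact Units.mul_inv v
  set s : ℤ_[p] := -(a * p * (2 + p * c)) with hs
  -- the conjugate
  have h2 : mk (a + s * (m ^ 2 * c)) (l ^ 2 * b + s * (d - a) - s ^ 2 * (m ^ 2 * c)) (m ^ 2 * c)
      (d - s * (m ^ 2 * c)) (by
        linear_combination hd - b * c * (l * m + 1) * hlm) ∈ N := by
    refine conj_mem hN (x := l) (y := s * m) (z := 0) (w := m) h (by linear_combination hlm) _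
      ?_ ?_ ?_ ?_
    · linear_combination -a * hlm
    · linear_combination (-s * d + s * a) * hlm
    · ring
    · linear_combination -d * hlm
  have h3 : mk d (-b) (-c) a (by linear_combination hd) ∈ N := by
    have := N.inv_mem h
    rwa [mk_inv hd (by linear_combination hd)] at this
  -- an upper triangular matrix
  set w : ℤ_[p] := d * (l ^ 2 * b + s * (d - a) - s ^ 2 * (m ^ 2 * c)) +
    (-b) * (d - s * (m ^ 2 * c)) with hw
  have key : a * m ^ 2 - a = s * (m ^ 2 * c) := by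
    have e1 : l ^ 2 - 1 = p * c * (2 + p * c) := by rw [hl]; ring
    have e2 : l ^ 2 * m ^ 2 = 1 := by rw [← mul_pow, hlm, one_pow]
    rw [hs]
    linear_combination a * e2 - a * m ^ 2 * e1
  have h4 : mk (m ^ 2) w 0 (l ^ 2) (by linear_combination (l * m + 1) * hlm) ∈ N := by
    refine mul_mem' h3 h2 _ ?_ ?_ ?_ ?_
    · linear_combination -m ^ 2 * hd + d * key
    · rw [hw]
    · linear_combination -c * key
    · have e2 : l ^ 2 * m ^ 2 = 1 := by rw [← mul_pow, hlm, one_pow]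
      have key2 : c * s = a - a * l ^ 2 := by
        rw [hs, hl]
        ring
      linear_combination (-l ^ 2) * hd + a ^ 2 * e2 + (c * s - a) * key - (a * m ^ 2 - d) * key2
  -- its commutator with an elementary matrix
  refine ⟨m ^ 4 - 1, ?_, ?_⟩
  · intro h0
    have hl4 : l ^ 4 = 1 := by
      have e2 : l ^ 4 * m ^ 4 = 1 := by rw [← mul_pow, hlm, one_pow]
      linear_combination e2 - l ^ 4 * h0
    have h6 : (p : ℤ_[p]) * c * (4 + (p * c) * (6 + 4 * (p * c) + (p * c) ^ 2)) = 0 := by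
      rw [hl] at hl4
      linear_combination hl4
    rcases mul_eq_zero.1 h6 with h7 | h7
    · rcases mul_eq_zero.1 h7 with h8 | h8
      · exact hp0 h8
      · exact hc h8
    · have h41 : ¬ ((p : ℤ) ∣ 4) := by
        intro hd
        have := Int.le_of_dvd (by norm_num) hd
        omega
      have h42 := (PadicInt.norm_int_lt_one_iff_dvd (p := p) 4).not.2 h41
      apply h42
      have h43 : ((4 : ℤ) : ℤ_[p]) = -((p * c) * (6 + 4 * (p * c) + (p * c) ^ 2)) := by
        push_cast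
        linear_combination h7
      rw [h43, norm_neg, norm_mul]
      calc ‖(p : ℤ_[p]) * c‖ * ‖6 + 4 * ((p : ℤ_[p]) * c) + (p * c) ^ 2‖
          ≤ ‖(p : ℤ_[p]) * c‖ * 1 := by
            gcongr
            exact PadicInt.norm_le_one _
        _ < 1 := by rwa [mul_one]
  · have h6 : mk (l ^ 2) (-w) 0 (m ^ 2) (by linear_combination (l * m + 1) * hlm) ∈ N := by
      have := N.inv_mem h4
      rw [mk_inv _ (by linear_combination (l * m + 1) * hlm)] at this
      simpa using this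
    have h7 : mk (l ^ 2) (-l ^ 2 - w + m ^ 2) 0 (m ^ 2)
        (by linear_combination (l * m + 1) * hlm) ∈ N := by
      refine conj_mem hN (x := 1) (y := 1) (z := 0) (w := 1) h6 (by ring) _ ?_ ?_ ?_ ?_ <;> ring
    refine mul_mem' h4 h7 _ ?_ ?_ ?_ ?_
    · linear_combination -(l * m + 1) * hlm
    · linear_combination (l * m + 1) * hlm
    · ring
    · linear_combination -(l * m + 1) * hlm

/-- a matrix as `mk` of its entries -/
lemma eq_mk (g : SpecialLinearGroup (Fin 2) ℤ_[p]) : ∃ h,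
    g = mk (g.1 0 0) (g.1 0 1) (g.1 1 0) (g.1 1 1) h := by
  have h : g.1 0 0 * g.1 1 1 - g.1 0 1 * g.1 1 0 = 1 := by
    have := g.2
    rwa [Matrix.det_fin_two] at this
  exact ⟨h, ext2 rfl rfl rfl rfl⟩

lemma exists_U (h5 : 5 ≤ p) {N : Subgroup (SpecialLinearGroup (Fin 2) ℤ_[p])}
    (hN : N.Normal) {g : SpecialLinearGroup (Fin 2) ℤ_[p]} (hg : g ∈ N)
    (hne : ¬ (g.1 0 1 = 0 ∧ g.1 1 0 = 0 ∧ g.1 0 0 = g.1 1 1)) :
    ∃ ν : ℤ_[p], ν ≠ 0 ∧ U ν ∈ N := by
  obtain ⟨h, e⟩ := eq_mk g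
  rw [e] at hg
  generalize g.1 0 0 = a, g.1 0 1 = b, g.1 1 0 = c, g.1 1 1 = d at *
  by_cases hc : c = 0
  · by_cases hb : b = 0
    · subst hc hb
      have had : a - d ≠ 0 := fun h0 => hne ⟨rfl, rfl, sub_eq_zero.1 h0⟩
      have h1 : mk a 0 (a - d) d (by linear_combination h) ∈ N := by
        refine conj_mem hN (x := 1) (y := 0) (z := 1) (w := 1) hg (by ring) _ ?_ ?_ ?_ ?_ <;> ring
      exact exists_U_of_ne h5 hN h1 had
    · have h1 : mk d (-c) (-b) a (by linear_combination h) ∈ N := by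
        refine conj_mem hN (x := 0) (y := 1) (z := -1) (w := 0) hg (by ring) _ ?_ ?_ ?_ ?_ <;> ring
      exact exists_U_of_ne h5 hN h1 (neg_ne_zero.2 hb)
  · exact exists_U_of_ne h5 hN hg hc

/-- A normal subgroup with an elementary matrix has finite index. -/
lemma finiteIndex (h5 : 5 ≤ p) {N : Subgroup (SpecialLinearGroup (Fin 2) ℤ_[p])} (hN : N.Normal)
    {ν : ℤ_[p]} (hν : ν ≠ 0) (h : U ν ∈ N) : N.FiniteIndex := by
  -- a power of `p` which is a multiple of `p ν ^ 2`
  obtain ⟨k, r, hk⟩ : ∃ (k : ℕ) (r : ℤ_[p]), (p : ℤ_[p]) ^ k = p * ν ^ 2 * r := by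
    have hs := PadicInt.unitCoeff_spec hν
    set u := PadicInt.unitCoeff hν with hu
    refine ⟨1 + 2 * ν.valuation, ((u⁻¹ : ℤ_[p]ˣ) : ℤ_[p]) ^ 2, ?_⟩
    have hu1 : (u : ℤ_[p]) * ((u⁻¹ : ℤ_[p]ˣ) : ℤ_[p]) = 1 := Units.mul_inv u
    have e : (ν * ((u⁻¹ : ℤ_[p]ˣ) : ℤ_[p])) = (p : ℤ_[p]) ^ ν.valuation := by
      calc ν * ((u⁻¹ : ℤ_[p]ˣ) : ℤ_[p])
          = (u : ℤ_[p]) * (p : ℤ_[p]) ^ ν.valuation * ((u⁻¹ : ℤ_[p]ˣ) : ℤ_[p]) := by rw [← hs]
        _ = (p : ℤ_[p]) ^ ν.valuation := by linear_combination (p : ℤ_[p]) ^ ν.valuation * hu1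
    calc (p : ℤ_[p]) ^ (1 + 2 * ν.valuation) = p * ((p : ℤ_[p]) ^ ν.valuation) ^ 2 := by ring
      _ = p * (ν * ((u⁻¹ : ℤ_[p]ˣ) : ℤ_[p])) ^ 2 := by rw [e]
      _ = _ := by ring
  have hfin : Finite (SpecialLinearGroup (Fin 2) (ZMod (p ^ k))) := by
    have : NeZero (p ^ k) := ⟨(pow_pos hp.out.pos k).ne'⟩
    have : Finite (Matrix (Fin 2) (Fin 2) (ZMod (p ^ k))) :=
      inferInstanceAs (Finite (Fin 2 → Fin 2 → ZMod (p ^ k)))
    exact Subtype.finite
  set f := SpecialLinearGroup.map (n := Fin 2) (PadicInt.toZModPow (p := p) k) with hf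
  have hker : f.ker ≤ N := by
    intro g hg
    rw [MonoidHom.mem_ker] at hg
    have hent : ∀ i j, PadicInt.toZModPow (p := p) k (g.1 i j) = (1 : Matrix _ _ _) i j := by
      intro i j
      have := congrArg (fun m => m.1 i j) hg
      simpa [hf] using this
    have hdiv : ∀ x : ℤ_[p], PadicInt.toZModPow (p := p) k x = 0 → ∃ y, x = (p : ℤ_[p]) ^ k * y := by
      intro x hx
      have : x ∈ RingHom.ker (PadicInt.toZModPow (p := p) k) := hx
      rw [PadicInt.ker_toZModPow, Ideal.mem_span_singleton] at this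
      exact this
    obtain ⟨t, ht⟩ := hdiv (g.1 0 0 - 1) (by rw [map_sub, hent, map_one]; simp)
    obtain ⟨β, hβ⟩ := hdiv (g.1 0 1) (by rw [hent]; simp)
    obtain ⟨γ, hγ⟩ := hdiv (g.1 1 0) (by rw [hent]; simp)
    obtain ⟨hd, e⟩ := eq_mk g
    rw [e]
    generalize g.1 0 0 = a, g.1 0 1 = b, g.1 1 0 = c, g.1 1 1 = d at *
    have ha : IsUnit a := by
      have e1 : a = 1 + p * (ν ^ 2 * r * t) := by linear_combination ht + t * hk
      have hlt : ‖(p : ℤ_[p]) * (ν ^ 2 * r * t)‖ < 1 := by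
        rw [norm_mul]
        calc ‖(p : ℤ_[p])‖ * ‖ν ^ 2 * r * t‖ ≤ ‖(p : ℤ_[p])‖ * 1 := by
              gcongr
              exact PadicInt.norm_le_one _
          _ < 1 := by rw [mul_one]; exact norm_p_lt
      rw [PadicInt.isUnit_iff, e1, add_comm]
      rw [PadicInt.norm_add_eq_max_of_ne (by rw [norm_one]; exact hlt.ne), norm_one]
      exact max_eq_right hlt.le
    obtain ⟨v, hv⟩ := ha
    refine congruence h5 hN h (t := p * r * t) (β := p * ν * r * β) (γ := p * ν * r * γ)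
      (e := ((v⁻¹ : ℤ_[p]ˣ) : ℤ_[p])) hd ?_ ?_ ?_ ?_
    · linear_combination ht + t * hk
    · linear_combination hβ + β * hk
    · linear_combination hγ + γ * hk
    · rw [← hv]; exact Units.mul_inv v
  have : f.ker.FiniteIndex := Subgroup.finiteIndex_ker f
  exact Subgroup.finiteIndex_of_le hker

/-- central matrices -/
lemma central_finite (N : Subgroup (SpecialLinearGroup (Fin 2) ℤ_[p]))
    (hN : ∀ g ∈ N, g.1 0 1 = 0 ∧ g.1 1 0 = 0 ∧ g.1 0 0 = g.1 1 1) : Finite N := by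
  have : Function.Injective (fun g : N => (⟨g.1.1 0 0, by
      have h := hN g.1 g.2
      obtain ⟨hd, -⟩ := eq_mk g.1
      have : g.1.1 0 0 ^ 2 = 1 := by
        rw [h.1, h.2.1, ← h.2.2] at hd
        linear_combination hd
      have h2 : (g.1.1 0 0 - 1) * (g.1.1 0 0 + 1) = 0 := by linear_combination this
      rcases mul_eq_zero.1 h2 with h3 | h3
      · exact Or.inl (by linear_combination h3)
      · exact Or.inr (by linear_combination h3)⟩ : {x : ℤ_[p] // x = 1 ∨ x = -1})) := by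
    intro g g' h
    have h1 := hN g.1 g.2
    have h2 := hN g'.1 g'.2
    have h3 : g.1.1 0 0 = g'.1.1 0 0 := congrArg Subtype.val h
    apply Subtype.ext
    exact ext2 h3 (h1.1.trans h2.1.symm) (h1.2.1.trans h2.2.1.symm)
      (h1.2.2.symm.trans (h3.trans h2.2.2))
  have hfin : Finite {x : ℤ_[p] // x = 1 ∨ x = -1} :=
    Set.Finite.to_subtype (Set.toFinite ({1, -1} : Set ℤ_[p]))
  exact Finite.of_injective _ this

lemma uncountable_padicInt : Uncountable ℤ_[p] := by
  by_contra hcon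
  rw [not_uncountable_iff] at hcon
  have h1 : Countable ℚ_[p] := by
    have hsurj : Function.Surjective (fun x : ℤ_[p] × ℤ_[p] => (x.1 : ℚ_[p]) / (x.2 : ℚ_[p])) := by
      intro x
      obtain ⟨a, b, -, h⟩ := IsFractionRing.div_surjective (A := ℤ_[p]) x
      exact ⟨(a, b), h⟩
    exact hsurj.countable
  have h2 := continuum_le_cardinal_of_nontriviallyNormedField ℚ_[p]
  have h3 := Cardinal.mk_le_aleph0_iff.2 h1
  exact absurd (h2.trans h3) (not_le.2 Cardinal.aleph0_lt_continuum)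

/-- For every prime `p ≥ 5` the group `SL_2(ℤ_p)` is compact, metrizable, nonarchimedean and
uncountable, and every uncountable normal subgroup of it has finite index. In particular it has no
uncountable normal subgroup (Borel, analytic or not) of uncountable index. -/
theorem result : ∀ (p : ℕ) [Fact p.Prime], 5 ≤ p →
    CompactSpace (SpecialLinearGroup (Fin 2) ℤ_[p]) ∧
    TopologicalSpace.MetrizableSpace (SpecialLinearGroup (Fin 2) ℤ_[p]) ∧
    NonarchimedeanGroup (SpecialLinearGroup (Fin 2) ℤ_[p]) ∧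
    Uncountable (SpecialLinearGroup (Fin 2) ℤ_[p]) ∧
    (∀ N : Subgroup (SpecialLinearGroup (Fin 2) ℤ_[p]), N.Normal → Uncountable N →
      Finite (SpecialLinearGroup (Fin 2) ℤ_[p] ⧸ N)) ∧
    ¬ ∃ N : Subgroup (SpecialLinearGroup (Fin 2) ℤ_[p]), N.Normal ∧ Uncountable N ∧
      Uncountable (SpecialLinearGroup (Fin 2) ℤ_[p] ⧸ N) := by
  intro p hp h5
  have hemb := SpecialLinearGroup.isClosedEmbedding_val (n := Fin 2) (R := ℤ_[p])
  have hcomp' : CompactSpace (Matrix (Fin 2) (Fin 2) ℤ_[p]) :=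
    inferInstanceAs (CompactSpace (Fin 2 → Fin 2 → ℤ_[p]))
  have hmet' : TopologicalSpace.MetrizableSpace (Matrix (Fin 2) (Fin 2) ℤ_[p]) :=
    inferInstanceAs (TopologicalSpace.MetrizableSpace (Fin 2 → Fin 2 → ℤ_[p]))
  have htd' : TotallyDisconnectedSpace (Matrix (Fin 2) (Fin 2) ℤ_[p]) :=
    inferInstanceAs (TotallyDisconnectedSpace (Fin 2 → Fin 2 → ℤ_[p]))
  have hcomp : CompactSpace (SpecialLinearGroup (Fin 2) ℤ_[p]) := hemb.compactSpace
  have hmet : TopologicalSpace.MetrizableSpace (SpecialLinearGroup (Fin 2) ℤ_[p]) :=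
    hemb.isEmbedding.metrizableSpace
  have htd : TotallyDisconnectedSpace (SpecialLinearGroup (Fin 2) ℤ_[p]) :=
    ⟨hemb.isEmbedding.isTotallyDisconnected (isTotallyDisconnected_of_totallyDisconnectedSpace _)⟩
  have hmain : ∀ N : Subgroup (SpecialLinearGroup (Fin 2) ℤ_[p]), N.Normal → Uncountable N →
      Finite (SpecialLinearGroup (Fin 2) ℤ_[p] ⧸ N) := by
    intro N hN hunc
    by_cases hc : ∀ g ∈ N, g.1 0 1 = 0 ∧ g.1 1 0 = 0 ∧ g.1 0 0 = g.1 1 1
    · have := central_finite N hc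
      exact absurd (inferInstance : Countable N) (not_countable_iff.2 hunc)
    · push Not at hc
      obtain ⟨g, hg, hne⟩ := hc
      obtain ⟨ν, hν, hU⟩ := exists_U h5 hN hg (fun h => hne h.1 h.2.1 h.2.2)
      have := finiteIndex h5 hN hν hU
      exact Subgroup.finite_quotient_of_finiteIndex
  refine ⟨hcomp, hmet, ?_, ?_, hmain, ?_⟩
  · constructor
    intro V hV
    obtain ⟨W, hWV, hW, h1⟩ := mem_nhds_iff.1 hV
    obtain ⟨H, hH⟩ := ProfiniteGrp.exist_openNormalSubgroup_sub_open_nhds_of_one hW h1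
    exact ⟨H.toOpenSubgroup, hH.trans hWV⟩
  · have hinj : Function.Injective (U (p := p)) := by
      intro x y hxy
      have := congrArg (fun m => m.1 0 1) hxy
      simpa [U, mk] using this
    have := uncountable_padicInt (p := p)
    exact hinj.uncountable
  · rintro ⟨N, hN, h1, h2⟩
    have := hmain N hN h1
    exact absurd (inferInstance : Countable (SpecialLinearGroup (Fin 2) ℤ_[p] ⧸ N))
      (not_countable_iff.2 h2)

end Pool.Agent.Results.MP_847604_al.SpecialLinear
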